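import Pool.Agent.R347.LC.Gen
import Pool.Agent.R465.ZP.Core
import Pool.Agent.TH120.HM.Cor

/-!
# `ζ(2) ζ(3)` and the span of `ζ(2), …, ζ(5)` over fields generated by Liouville numbers

Let `q_0, q_1, …` be integers `≥ 2`. A real number `x` is *approximable* if for some `h` and every `κ` there
are, for all large `k`, integers `u` and `1 ≤ v ≤ q_k ^ h` with `|x - u / v| ≤ q_k ^ (-κ)`. The approximable
numbers form a field. Every Liouville number `ξ` is approximable for some sequence, so that `ℚ(ξ)` is contained in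
such a field; for `q_k = 2 ^ ((k + 2)!)` the field has transcendence degree the cardinality of the continuum.

**Theorem.** Let `L` be a field of approximable numbers, for example `ℚ(ξ)` for any Liouville number `ξ`. Then
`ζ(2) ζ(3), ζ(2), ζ(4)` are linearly independent over `L`; so `ζ(2) ζ(3)` is not in `L ζ(2) + L ζ(4)`, and in a relation
`ζ(2) ζ(3) = a ζ(2) + b ζ(3) + c ζ(4) + d ζ(5)` with coefficients in `L` one has `(b, d) ≠ (0, 0)` and `a, c` are
determined by `b, d`. The relations over `L` between `ζ(2) ζ(3), ζ(2), ζ(3), ζ(4), ζ(5)` form a space of dimension at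
most two over `L`.

The proof divides the relation by `ζ(2)` and uses the linear independence of `1, ζ(2), ζ(3)` over `L`, which follows
from the measure for forms in `1, ζ(2), ζ(3)` with integer coefficients of the starting library
(`Pool.Agent.TH120.HM.measure_all`), since finitely many elements of `L` are approximated by rational numbers with a
common denominator (`Pool.Agent.R347.LC`).
-/

set_option autoImplicit false

namespace Pool.Agent.Results.MP_524521_nt.LiouvilleCoefficients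

/-- For some `h` and every `κ`, for all large `k`, there are integers `u` and `1 ≤ v ≤ (q k) ^ h` with
`|x - u / v| ≤ (q k) ^ (-κ)`. -/
def Approximable (q : ℕ → ℕ) (x : ℝ) : Prop :=
  ∃ h : ℕ, ∀ κ : ℕ, ∃ k₀ : ℕ, ∀ k ≥ k₀, ∃ (u : ℤ) (v : ℕ), 1 ≤ v ∧ v ≤ q k ^ h ∧
    |x - (u : ℝ) / v| ≤ (((q k : ℕ) : ℝ) ^ κ)⁻¹

/-- The zeta value `ζ(k)`, `k ≥ 2`. -/
noncomputable def Z (k : ℕ) : ℝ := ∑' n : ℕ, 1 / ((n : ℝ) + 1) ^ k

/-- The linear form `v₀ ζ(2) ζ(3) + v₁ ζ(2) + v₂ ζ(3) + v₃ ζ(4) + v₄ ζ(5)`. -/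
noncomputable def form (v : Fin 5 → ℝ) : ℝ :=
  v 0 * (Z 2 * Z 3) + v 1 * Z 2 + v 2 * Z 3 + v 3 * Z 4 + v 4 * Z 5

/-- The relation `ζ(2) ζ(3) = a ζ(2) + b ζ(3) + c ζ(4) + d ζ(5)`. -/
def Rel (a b c d : ℝ) : Prop :=
  Z 2 * Z 3 = a * Z 2 + b * Z 3 + c * Z 4 + d * Z 5

/-- `ζ(2) ζ(3), ζ(2), ζ(4)` are linearly independent over `L`. -/
def Independent (L : IntermediateField ℚ ℝ) : Prop :=
  LinearIndependent L ![Z 2 * Z 3, Z 2, Z 4]

/-- In a relation over `L` the coefficients `b, d` are not both `0`. -/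
def NonzeroPart (L : IntermediateField ℚ ℝ) : Prop :=
  ∀ a b c d : L, Rel a b c d → ¬ (b = 0 ∧ d = 0)

/-- In the relations over `L` the coefficients `a, c` are determined by `b, d`. -/
def Determined (L : IntermediateField ℚ ℝ) : Prop :=
  ∀ a b c d a' c' : L, Rel a b c d → Rel a' b c' d → a' = a ∧ c' = c

/-- The relations over `L` form a space of dimension at most two: any three of them are linearly dependent. -/
def RankAtMostTwo (L : IntermediateField ℚ ℝ) : Prop :=
  ∀ v : Fin 3 → Fin 5 → ℝ, (∀ i j, v i j ∈ L) → (∀ i, form (v i) = 0) → ¬ LinearIndependent L v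

/-- The four statements over `L`. -/
def Good (L : IntermediateField ℚ ℝ) : Prop :=
  Independent L ∧ NonzeroPart L ∧ Determined L ∧ RankAtMostTwo L

/-- The sequence `2 ^ ((k + 2)!)`. -/
def q₀ (k : ℕ) : ℕ := 2 ^ (k + 2).factorial

/-- `1, ζ(2), ζ(3)` are linearly independent over `L`. -/
theorem linind {q : ℕ → ℕ} (hq : ∀ k, 2 ≤ q k) (L : IntermediateField ℚ ℝ)
    (hL : ∀ x ∈ L, Approximable q x) : LinearIndependent L ![(1 : ℝ), Z 2, Z 3] := by
  obtain ⟨c, hc, h⟩ := Pool.Agent.TH120.HM.measure_all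
  refine Pool.Agent.R347.LC.lin3' hq L hL ⟨c, 227, hc, fun a b d H hbd hH hb hd => ?_⟩
  have h1 := h a b d H hH (by
    rintro ⟨-, h2, h3⟩
    rcases hbd with h4 | h4
    · exact h4 h2
    · exact h4 h3) hb hd
  have hH0 : 0 < H := by linarith
  have e : H ^ (227 : ℕ) * H ^ (-227 : ℝ) = 1 := by
    rw [Real.rpow_neg hH0.le]
    have : H ^ (227 : ℝ) = H ^ (227 : ℕ) := by exact_mod_cast Real.rpow_natCast H 227
    rw [this]
    exact mul_inv_cancel₀ (by positivity)
  calc c = H ^ (227 : ℕ) * (c * H ^ (-227 : ℝ)) := by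
        rw [mul_left_comm, e, mul_one]
    _ ≤ H ^ (227 : ℕ) * |(a : ℝ) + b * Z 2 + d * Z 3| :=
        mul_le_mul_of_nonneg_left h1 (by positivity)

/-- independence of `ζ(2) ζ(3), ζ(2), ζ(4)` over `L` -/
theorem indepL {L : IntermediateField ℚ ℝ} (LI : LinearIndependent L ![(1 : ℝ), Z 2, Z 3])
    (x a c : L) (h : (x : ℝ) * (Z 2 * Z 3) + a * Z 2 + c * Z 4 = 0) : x = 0 ∧ a = 0 ∧ c = 0 := by
  rw [Fintype.linearIndependent_iff] at LI
  have e4 : Z 4 = 2 / 5 * Z 2 ^ 2 := Pool.Agent.R465.ZP.Z4_eq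
  have h0 : ((a : ℝ) + 2 / 5 * c * Z 2 + x * Z 3) * Z 2 = 0 := by
    rw [e4] at h
    linarith
  have hp : 0 < Z 2 := Pool.Agent.R465.ZP.Z2_pos
  have h00 := (mul_eq_zero.1 h0).resolve_right hp.ne'
  have t2 : ((2 : L) : ℝ) = 2 := rfl
  have t5 : ((5 : L) : ℝ) = 5 := rfl
  have h1 := LI ![a, 2 / 5 * c, x] (by
    rw [Fin.sum_univ_three]
    simp only [Matrix.cons_val_zero, Matrix.cons_val_one, Matrix.cons_val,
      IntermediateField.smul_def, smul_eq_mul]
    push_cast
    rw [t2, t5]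
    linarith)
  have e0 := h1 0
  have e1 := h1 1
  have e2 := h1 2
  simp only [Matrix.cons_val_zero, Matrix.cons_val_one, Matrix.cons_val] at e0 e1 e2
  refine ⟨e2, e0, ?_⟩
  rcases mul_eq_zero.1 e1 with h | h
  · norm_num at h
  · exact h

theorem good_of {q : ℕ → ℕ} (hq : ∀ k, 2 ≤ q k) (L : IntermediateField ℚ ℝ)
    (hL : ∀ x ∈ L, Approximable q x) : Good L := by
  have LI := linind hq L hL
  refine ⟨?_, ?_, ?_, ?_⟩
  · unfold Independent
    rw [Fintype.linearIndependent_iff]
    intro g hg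
    rw [Fin.sum_univ_three] at hg
    simp only [Matrix.cons_val_zero, Matrix.cons_val_one, Matrix.cons_val,
      IntermediateField.smul_def, smul_eq_mul] at hg
    have h1 := indepL LI (g 0) (g 1) (g 2) hg
    intro i
    fin_cases i
    · exact h1.1
    · exact h1.2.1
    · exact h1.2.2
  · rintro a b c d h ⟨hb, hd⟩
    have h1 := indepL LI 1 (-a) (-c) (by
      unfold Rel at h
      rw [hb, hd] at h
      push_cast
      push_cast at h
      linarith)
    exact one_ne_zero h1.1
  · intro a b c d a' c' h h'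
    unfold Rel at h h'
    have h1 := indepL LI 0 (a' - a) (c' - c) (by
      push_cast
      linarith)
    exact ⟨sub_eq_zero.1 h1.2.1, sub_eq_zero.1 h1.2.2⟩
  · intro v hv hform hli
    have hu : ¬ LinearIndependent L (fun i : Fin 3 =>
        (![⟨v i 2, hv i 2⟩, ⟨v i 4, hv i 4⟩] : Fin 2 → L)) := by
      intro h
      have := h.fintype_card_le_finrank
      rw [Module.finrank_fintype_fun_eq_card, Fintype.card_fin, Fintype.card_fin] at this
      omega
    rw [Fintype.not_linearIndependent_iff] at hu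
    obtain ⟨g, hg, i, hi⟩ := hu
    have g2 : ∑ i, (g i : ℝ) * v i 2 = 0 := by
      have h := congrArg (fun z : L => (z : ℝ)) (congrFun hg 0)
      simpa [Finset.sum_apply] using h
    have g4 : ∑ i, (g i : ℝ) * v i 4 = 0 := by
      have h := congrArg (fun z : L => (z : ℝ)) (congrFun hg 1)
      simpa [Finset.sum_apply] using h
    have hmem : ∀ j, ∑ i, (g i : ℝ) * v i j ∈ L := fun j =>
      sum_mem fun i _ => mul_mem (g i).2 (hv i j)
    have hf : form (fun j => ∑ i, (g i : ℝ) * v i j) = 0 := by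
      have h : ∑ i, (g i : ℝ) * form (v i) = 0 := by simp [hform]
      rw [← h]
      unfold form
      simp only [Fin.sum_univ_three]
      ring
    unfold form at hf
    beta_reduce at hf
    rw [g2, g4, zero_mul, zero_mul, add_zero, add_zero] at hf
    have h1 := indepL LI ⟨_, hmem 0⟩ ⟨_, hmem 1⟩ ⟨_, hmem 3⟩ hf
    have e0 : ∑ i, (g i : ℝ) * v i 0 = 0 := congrArg (fun z : L => (z : ℝ)) h1.1
    have e1 : ∑ i, (g i : ℝ) * v i 1 = 0 := congrArg (fun z : L => (z : ℝ)) h1.2.1
    have e3 : ∑ i, (g i : ℝ) * v i 3 = 0 := congrArg (fun z : L => (z : ℝ)) h1.2.2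
    refine hi (Fintype.linearIndependent_iff.1 hli g ?_ i)
    funext j
    rw [Finset.sum_apply]
    have : ∀ j, ∑ i, (g i • v i) j = 0 := by
      intro j
      have : ∑ i, (g i • v i) j = ∑ i, (g i : ℝ) * v i j := rfl
      rw [this]
      fin_cases j
      · exact e0
      · exact e1
      · exact g2
      · exact e3
      · exact g4
    exact this j

/-- **Main result.** -/
theorem result :
    -- the approximable numbers form a field
    (∀ q : ℕ → ℕ, (∀ k, 2 ≤ q k) → ∃ L : IntermediateField ℚ ℝ, ∀ x, x ∈ L ↔ Approximable q x) ∧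
    -- the transcendence degree of the field for the explicit sequence
    ((∀ k, 2 ≤ q₀ k) ∧ ∀ L : IntermediateField ℚ ℝ, (∀ x, x ∈ L ↔ Approximable q₀ x) →
      Algebra.trdeg ℚ L = Cardinal.continuum) ∧
    -- the statement over all fields of approximable numbers
    (∀ q : ℕ → ℕ, (∀ k, 2 ≤ q k) → ∀ L : IntermediateField ℚ ℝ, (∀ x ∈ L, Approximable q x) →
      Good L) ∧
    -- in particular over the field `ℚ(ξ)` for a Liouville number `ξ`
    (∀ ξ : ℝ, Liouville ξ → Good (IntermediateField.adjoin ℚ {ξ})) := by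
  refine ⟨Pool.Agent.R347.LC.field_ex, ⟨Pool.Agent.R347.LC.two_le_qe,
    Pool.Agent.R347.LC.trdeg_qe⟩, fun q hq L hL => good_of hq L hL, fun ξ hξ => ?_⟩
  obtain ⟨q, hq, h⟩ := Pool.Agent.R347.LC.of_liouville hξ
  exact good_of hq _ h

end Pool.Agent.Results.MP_524521_nt.LiouvilleCoefficients
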