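import Mathlib
import Pool.Agent.R465.ZP.Core
import Pool.Agent.TH120.HM.Cor
import Pool.Agent.H337R2.LZ.Z

/-!
# `ζ(2) ζ(3)` and the rational span of `ζ(2), ζ(3), ζ(4), ζ(5)`: relations and near relations

`ζ(2) ζ(3)` is not in the span of `ζ(2), ζ(4)`, with an explicit lower bound for the distance, and
the relations `x ζ(2) ζ(3) + a ζ(2) + b ζ(3) + c ζ(4) + d ζ(5) = 0` form a rational space of
dimension at most two; at every scale the same holds for the near relations. The proof divides the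
form by `ζ(2)` and uses the measure of linear independence for `1, ζ(2), ζ(3)` of the starting
library, with `ζ(3) / ζ(2)` and `ζ(5) / ζ(2)` as arbitrary numbers.
-/

set_option autoImplicit false

namespace Pool.Agent.Results.MP_524521_nt.NearRelations

/-- the zeta value `ζ(k)`, `k ≥ 2` -/
noncomputable def Z (k : ℕ) : ℝ := ∑' n : ℕ, 1 / ((n : ℝ) + 1) ^ k

/-- the linear form `v₀ ζ(2) ζ(3) + v₁ ζ(2) + v₂ ζ(3) + v₃ ζ(4) + v₄ ζ(5)` -/
noncomputable def form (v : Fin 5 → ℝ) : ℝ :=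
  v 0 * (Z 2 * Z 3) + v 1 * Z 2 + v 2 * Z 3 + v 3 * Z 4 + v 4 * Z 5

/-- (1) There is `k > 0` with `|ζ(2) ζ(3) - (A/q) ζ(2) - (C/q) ζ(4)| ≥ k H ^ (-228)` for all
integers `q > 0`, `A`, `C` with `q, |C| ≤ H`; so in every relation
`ζ(2) ζ(3) = a ζ(2) + b ζ(3) + c ζ(4) + d ζ(5)` with rational coefficients the part
`b ζ(3) + d ζ(5)` is at least `k H ^ (-228)` in absolute value, where `H` bounds the numerator of
`c` and the common denominator of `a, c`. (2) In particular `(b, d) ≠ (0, 0)`: the number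
`ζ(2) ζ(3)` is not a rational combination of `ζ(2), ζ(4)`. (3) `a, c` are determined by `b, d`. (4)
The rational relations form a space of dimension at most two. (5) At every scale `X` the integer
vectors of norm at most `X` with `|form v| < k X ^ (-683)` have rank at most two. -/
theorem result :
    (∃ k : ℝ, 0 < k ∧ ∀ (q A C : ℤ) (H : ℝ), 0 < q → (q : ℝ) ≤ H → |(C : ℝ)| ≤ H →
      k * H ^ (-228 : ℝ) ≤ |Z 2 * Z 3 - ((A : ℝ) / q * Z 2 + (C : ℝ) / q * Z 4)| ∧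
      ∀ b d : ℚ, Z 2 * Z 3 = (A : ℝ) / q * Z 2 + b * Z 3 + (C : ℝ) / q * Z 4 + d * Z 5 →
        k * H ^ (-228 : ℝ) ≤ |b * Z 3 + d * Z 5|) ∧
    (∀ a b c d : ℚ, Z 2 * Z 3 = a * Z 2 + b * Z 3 + c * Z 4 + d * Z 5 → ¬ (b = 0 ∧ d = 0)) ∧
    (∀ a b c d a' c' : ℚ, Z 2 * Z 3 = a * Z 2 + b * Z 3 + c * Z 4 + d * Z 5 →
      Z 2 * Z 3 = a' * Z 2 + b * Z 3 + c' * Z 4 + d * Z 5 → a' = a ∧ c' = c) ∧
    (∀ W : Submodule ℚ (Fin 5 → ℚ), (∀ v ∈ W, (form fun i => (v i : ℝ)) = 0) →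
      Module.finrank ℚ W ≤ 2) ∧
    (∃ k : ℝ, 0 < k ∧ ∀ X : ℝ, 1 ≤ X → ∀ v : Fin 3 → Fin 5 → ℤ, LinearIndependent ℤ v →
      (∀ j i, |(v j i : ℝ)| ≤ X) →
        ∃ j, k * X ^ (-683 : ℝ) ≤ |form fun i => (v j i : ℝ)|) := by
  have hM : Pool.Agent.R465.ZP.M 227 := by
    obtain ⟨c, hc, h⟩ := Pool.Agent.TH120.HM.measure_all
    exact ⟨c, hc, fun a b d H hH h0 hb hd => h a b d H hH h0 hb hd⟩
  have LI : LinearIndependent ℚ ![(1 : ℝ), Pool.Agent.R465.ZP.Z 2, Pool.Agent.R465.ZP.Z 3] :=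
    Pool.Agent.LZ.Z3_linind
  refine ⟨?_, ?_, ?_, ?_, ?_⟩
  · obtain ⟨k, hk, h⟩ := Pool.Agent.R465.ZP.part1 hM
    refine ⟨k, hk, fun q A C H hq hqH hCH => ?_⟩
    have h1 := h q A C H hq hqH hCH
    have e : (-(227 + 1) : ℝ) = -228 := by norm_num
    rw [e] at h1
    refine ⟨h1, fun b d hrel => ?_⟩
    have e2 : Z 2 * Z 3 - ((A : ℝ) / q * Z 2 + (C : ℝ) / q * Z 4) = b * Z 3 + d * Z 5 := by
      linarith
    rw [← e2]
    exact h1
  · rintro a b c d h ⟨hb, hd⟩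
    have h1 := Pool.Agent.R465.ZP.indepQ LI 1 (-a) (-c) (by
      have h' : Z 2 * Z 3 = a * Z 2 + b * Z 3 + c * Z 4 + d * Z 5 := h
      rw [hb, hd] at h'
      push_cast
      have e : ∀ k, Pool.Agent.R465.ZP.Z k = Z k := fun k => rfl
      rw [e, e, e]
      push_cast at h'
      linarith)
    exact one_ne_zero h1.1
  · intro a b c d a' c' h h'
    have h1 := Pool.Agent.R465.ZP.indepQ LI 0 (a' - a) (c' - c) (by
      push_cast
      have e : ∀ k, Pool.Agent.R465.ZP.Z k = Z k := fun k => rfl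
      rw [e, e, e]
      linarith)
    exact ⟨by linarith [h1.2.1], by linarith [h1.2.2]⟩
  · exact fun W hW => Pool.Agent.R465.ZP.rank_le LI W hW
  · obtain ⟨k, hk, h⟩ := Pool.Agent.R465.ZP.part2 hM
    refine ⟨k, hk, fun X hX v hv hvX => ?_⟩
    have h1 := h X hX v hv hvX
    have e : (-(2 + 3 * 227) : ℝ) = -683 := by norm_num
    rw [e] at h1
    exact h1

end Pool.Agent.Results.MP_524521_nt.NearRelations
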