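import Mathlib
import Pool.Agent.R473.DW.Wrd

set_option autoImplicit false

/-!
# `ζ(n) ζ(n + 1)` and the span of `ζ(n), ζ(n + 1), ζ(2 n), ζ(2 n + 1)`: `S`-units and digits
-/

namespace Pool.Agent.Results.MP_524521_nt.ProductsAtLargeArguments

open Pool.Agent.R473.DW Pool.Agent.Y760.RT Pool.Agent.TH507.ZS Pool.Agent.R473.TB

/-- the value of the Riemann zeta function at the integer `s ≥ 2` -/
noncomputable def zeta (s : ℕ) : ℝ := ∑' k : ℕ, 1 / ((k + 1 : ℕ) : ℝ) ^ s

/-- pairs `i ≤ j ≤ h` -/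
abbrev Pair (h : ℕ) : Type := {x : Fin (h + 1) × Fin (h + 1) // x.1 ≤ x.2}

/-- the products `ζ(n + i) ζ(n + j)`, `i ≤ j ≤ h`, and the values `ζ(n + j)` and `ζ(2 n + j)`,
`j ≤ h` -/
noncomputable def val {h : ℕ} (n : ℕ) : Pair h ⊕ Fin (h + 1) ⊕ Fin (h + 1) → ℝ
  | Sum.inl x => zeta (n + x.1.1) * zeta (n + x.1.2)
  | Sum.inr (Sum.inl j) => zeta (n + j)
  | Sum.inr (Sum.inr j) => zeta (2 * n + j)

/-- the `k`-th digit after the point of `x` in base `b` (`k = 0` is the first one) -/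
noncomputable def digit (b : ℕ) (x : ℝ) (k : ℕ) : ℤ := ⌊(b : ℝ) ^ (k + 1) * x⌋ % b

/-- `D` is a sum of `R` terms `a ∏ p ^ k(p)` over `p ∈ S`, with integers `|a| ≤ R` and integers
`|k(p)| ≤ X` -/
def SUnitSum (S : Finset ℕ) (R : ℕ) (X : ℝ) (D : ℚ) : Prop :=
  ∃ (a : Fin R → ℤ) (k : Fin R → ℕ → ℤ), (∀ r, |a r| ≤ R) ∧ (∀ r, ∀ p ∈ S, |(k r p : ℝ)| ≤ X) ∧
    D = ∑ r, (a r : ℚ) * ∏ p ∈ S, (p : ℚ) ^ k r p

/-- the products of words -/
noncomputable def wds {h : ℕ} : Pair h ⊕ Fin (h + 1) ⊕ Fin (h + 1) → List (List (ℕ+ × ℕ)) →₀ ℚ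
  | Sum.inl x => Finsupp.single [[(1, (x.1.1 : ℕ))], [(1, (x.1.2 : ℕ))]] 1
  | Sum.inr (Sum.inl j) => Finsupp.single [[(1, (j : ℕ))]] 1
  | Sum.inr (Sum.inr j) => Finsupp.single [[(2, (j : ℕ))]] 1

/-- their expansions -/
noncomputable def exps {h : ℕ} : Pair h ⊕ Fin (h + 1) ⊕ Fin (h + 1) → List (ℕ+ × ℕ) →₀ ℚ
  | Sum.inl x => Finsupp.single [(1, (x.1.1 : ℕ)), (1, (x.1.2 : ℕ))] 1 +
      Finsupp.single [(1, (x.1.2 : ℕ)), (1, (x.1.1 : ℕ))] 1 +
      Finsupp.single [(2, (x.1.1 : ℕ) + (x.1.2 : ℕ))] 1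
  | Sum.inr (Sum.inl j) => Finsupp.single [(1, (j : ℕ))] 1
  | Sum.inr (Sum.inr j) => Finsupp.single [(2, (j : ℕ))] 1

lemma one_add_one : (1 : ℕ+) + 1 = 2 := rfl

lemma expand_wds {h : ℕ} (s : Pair h ⊕ Fin (h + 1) ⊕ Fin (h + 1)) :
    Pool.Agent.Y760.ST.expand (wds s) = exps s := by
  rcases s with x | j | j
  · rw [wds, exps, Pool.Agent.Y760.ST.expand, Finsupp.linearCombination_single, one_smul]
    simp [Pool.Agent.TH507.WD.stl, Pool.Agent.TH507.WD.st, one_add_one, add_assoc]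
  · rw [wds, exps, Pool.Agent.Y760.ST.expand, Finsupp.linearCombination_single, one_smul]
    simp [Pool.Agent.TH507.WD.stl, Pool.Agent.TH507.WD.st]
  · rw [wds, exps, Pool.Agent.Y760.ST.expand, Finsupp.linearCombination_single, one_smul]
    simp [Pool.Agent.TH507.WD.stl, Pool.Agent.TH507.WD.st]

lemma mz_zeta (s : ℕ) : Pool.Agent.TH507.WD.mz [s] = zeta s := by
  rw [Pool.Agent.TH507.WD.mz, zeta]
  exact tsum_congr fun k => by rw [Pool.Agent.TH507.WD.hr_nil]

lemma valP_wds {h : ℕ} (n : ℕ) (s : Pair h ⊕ Fin (h + 1) ⊕ Fin (h + 1)) :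
    Pool.Agent.Y760.ST.valP n (wds s) = val n s := by
  rcases s with x | j | j
  · rw [wds, val, Pool.Agent.Y760.ST.valP, Finsupp.linearCombination_single, one_smul]
    simp [Pool.Agent.TH507.WD.ar, mz_zeta]
  · rw [wds, val, Pool.Agent.Y760.ST.valP, Finsupp.linearCombination_single, one_smul]
    simp [Pool.Agent.TH507.WD.ar, mz_zeta]
  · rw [wds, val, Pool.Agent.Y760.ST.valP, Finsupp.linearCombination_single, one_smul]
    simp [Pool.Agent.TH507.WD.ar, mz_zeta]

lemma ind {h : ℕ} (v : Pair h ⊕ Fin (h + 1) ⊕ Fin (h + 1) → ℚ) (c : ℚ)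
    (hv : ∑ s, v s • Pool.Agent.Y760.ST.expand (wds s) = Finsupp.single [] c) : v = 0 := by
  simp only [expand_wds] at hv
  have happ : ∀ w : List (ℕ+ × ℕ), w ≠ [] → ∑ s, v s * exps s w = 0 := by
    intro w hw
    have h1 := DFunLike.congr_fun hv w
    rw [Finsupp.finsetSum_apply, Finsupp.single_eq_of_ne hw] at h1
    rw [← h1]
    exact Finset.sum_congr rfl fun s _ => by rw [Finsupp.smul_apply, smul_eq_mul]
  have hpair : ∀ x : Pair h, v (Sum.inl x) = 0 := by
    intro x
    have h1 := happ [(1, (x.1.1 : ℕ)), (1, (x.1.2 : ℕ))] (by simp)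
    rw [Finset.sum_eq_single (Sum.inl x)] at h1
    · have h2 : exps (Sum.inl x) [(1, (x.1.1 : ℕ)), (1, (x.1.2 : ℕ))] ≠ 0 := by
        rw [exps, Finsupp.add_apply, Finsupp.add_apply, Finsupp.single_eq_same,
          Finsupp.single_apply, Finsupp.single_apply]
        split_ifs <;> norm_num
      exact (mul_eq_zero.1 h1).resolve_right h2
    · intro s _ hs
      rcases s with y | j | j
      · have h2 : exps (Sum.inl y) [(1, (x.1.1 : ℕ)), (1, (x.1.2 : ℕ))] = 0 := by
          have hxy : ¬ (y.1.1 = x.1.1 ∧ y.1.2 = x.1.2) := fun he =>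
            hs (by rw [Subtype.ext (Prod.ext he.1 he.2)])
          have hyx : ¬ (y.1.2 = x.1.1 ∧ y.1.1 = x.1.2) := by
            rintro ⟨h3, h4⟩
            have h5 := y.2
            have h6 := x.2
            rw [h3, h4] at h5
            have h7 : x.1.1 = x.1.2 := le_antisymm h6 h5
            exact hxy ⟨by rw [h4, h7], by rw [h3, h7]⟩
          rw [exps, Finsupp.add_apply, Finsupp.add_apply, Finsupp.single_apply,
            Finsupp.single_apply, Finsupp.single_apply, if_neg, if_neg, if_neg]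
          · norm_num
          · simp
          · simpa [Fin.val_inj] using hyx
          · simpa [Fin.val_inj] using hxy
        rw [h2, mul_zero]
      · rw [exps, Finsupp.single_apply, if_neg (by simp), mul_zero]
      · rw [exps, Finsupp.single_apply, if_neg (by simp), mul_zero]
    · intro hn
      exact absurd (Finset.mem_univ _) hn
  have hone : ∀ j : Fin (h + 1), v (Sum.inr (Sum.inl j)) = 0 := by
    intro j
    have h1 := happ [(1, (j : ℕ))] (by simp)
    rw [Finset.sum_eq_single (Sum.inr (Sum.inl j))] at h1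
    · rw [exps, Finsupp.single_eq_same, mul_one] at h1
      exact h1
    · intro s _ hs
      rcases s with y | i | i
      · rw [hpair, zero_mul]
      · rw [exps, Finsupp.single_apply, if_neg, mul_zero]
        intro he
        apply hs
        have h2 : (i : ℕ) = j := by simpa using he
        rw [Fin.ext h2]
      · rw [exps, Finsupp.single_apply, if_neg (by simp), mul_zero]
    · intro hn
      exact absurd (Finset.mem_univ _) hn
  have htwo : ∀ j : Fin (h + 1), v (Sum.inr (Sum.inr j)) = 0 := by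
    intro j
    have h1 := happ [(2, (j : ℕ))] (by simp)
    rw [Finset.sum_eq_single (Sum.inr (Sum.inr j))] at h1
    · rw [exps, Finsupp.single_eq_same, mul_one] at h1
      exact h1
    · intro s _ hs
      rcases s with y | i | i
      · rw [hpair, zero_mul]
      · rw [hone, zero_mul]
      · rw [exps, Finsupp.single_apply, if_neg, mul_zero]
        intro he
        apply hs
        have h2 : (i : ℕ) = j := by simpa using he
        rw [Fin.ext h2]
    · intro hn
      exact absurd (Finset.mem_univ _) hn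
  funext s
  rcases s with y | i | i
  · exact hpair y
  · exact hone i
  · exact htwo i

/-- **Result.** Consider the products `ζ(n + i) ζ(n + j)`, `0 ≤ i ≤ j ≤ h`, and the values
`ζ(n), …, ζ(n + h)`, `ζ(2 n), …, ζ(2 n + h)` (the problem concerns `n = 2`, `h = 1`, the product
`ζ(n) ζ(n + 1)` and `ζ(n), ζ(n + 1), ζ(2 n), ζ(2 n + 1)`).
(1) For every finite set `S` of primes there is `K ≥ 2` such that for all `R`, `C` and `B > 1`, all
large `n`, all `D_s`, not all zero, which are sums of at most `R` `S`-units of height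
exponential in `C n`, and all integers `p`: the linear form in these numbers with the coefficients
`D_s` and the constant term `-p` is larger than `B ^ (-n) min(1, |D_t| K ^ (-n))` in absolute value,
for every `t`.
(2) For every base `b` there is `κ` such that for all `ε > 0` and `C` and all large `n` no word of
at least `ε n` digits occurs at two different places, not both before `κ n`, in the first `C n`
digits of the expansions of these numbers in base `b`. -/
theorem result (h : ℕ) :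
    (∀ S : Finset ℕ, (∀ p ∈ S, p.Prime) → ∃ K : ℕ, 2 ≤ K ∧ ∀ (R : ℕ) (C B : ℝ), 1 < B →
      ∃ n0 : ℕ, ∀ n : ℕ, n0 ≤ n → ∀ D : Pair h ⊕ Fin (h + 1) ⊕ Fin (h + 1) → ℚ,
      (∀ s, SUnitSum S R (C * n) (D s)) → (∃ s, D s ≠ 0) →
      ∀ (p : ℤ) (t : Pair h ⊕ Fin (h + 1) ⊕ Fin (h + 1)),
      (B ^ n)⁻¹ * min 1 (|(D t : ℝ)| / (K : ℝ) ^ n) < |∑ s, (D s : ℝ) * val n s - p|) ∧
    (∀ b : ℕ, 2 ≤ b → ∃ κ : ℝ, ∀ ε C : ℝ, 0 < ε → ∃ n0 : ℕ, ∀ n : ℕ, n0 ≤ n →
      ∀ (s t : Pair h ⊕ Fin (h + 1) ⊕ Fin (h + 1)) (i j : ℕ), (i : ℝ) ≤ C * n →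
      (j : ℝ) ≤ C * n → κ * n ≤ max i j → (s, i) ≠ (t, j) → ∃ l : ℕ, (l : ℝ) < ε * n ∧
        digit b (val n s) (i + l) ≠ digit b (val n t) (j + l)) := by
  refine ⟨fun S hS => ?_, fun b hb => ?_⟩
  · have h1 := wd_forms wds (ind (h := h)) hS
    simp only [valP_wds] at h1
    exact h1
  · have h1 := wd_digits wds (ind (h := h)) hb
    simp only [valP_wds] at h1
    exact h1

end Pool.Agent.Results.MP_524521_nt.ProductsAtLargeArguments
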